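import Mathlib
import Pool.Agent.TH394.HadCheck

/-!
# A Hadamard matrix of order 4492

Four `±1` functions on `Z_1123` (nibble `p` of `Q` holds the four signs at the element with
code `p`) with total periodic autocorrelation `0`, invariant under the multiplier group of
order 33.
-/

set_option autoImplicit false

namespace Pool.Agent.Helper25K9.Had.N1123

open Pool.Agent.TH394

/-- the sequences -/
def Q : ℕ :=
  0xd62d18daa5e5f6906a6e21de42fd2951df176f4118053a50dd5aebca58dd5ea5767255f8ada2ed955555a1a4d7f074a9f62c149a90e7df8084e5aa66be607aae08fd682a2eaedb11972a702ad1dcf984dea414aed7d54a4d56821291588df719db7d18af752dfd7a89e951565cbb9571e51da1de80b03f2d07911d99d60757b1d961f28a6f211a3a48f0f7719a27b313995898e0a2a10a9adae576cf5b3de1ddda91270d55fda02086a8dadedd971decee2d512893ea7d958ee1711c4b18b53dcc17662a45a53a5b66ced81c2ba6d8b7b1edb0597e55f45f2e3f27a7adee16a5c07ed37c1055061021517751d7726aaa21562d15b52a5d99fa0fe9a84428b7a55a096da37b8aa5d00d7238c363ea17fa6d5572599b98d6a569709a56077765c7890d5ea119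15d161aaa8cad5011aa96aac709054225d7fdbae67f7a68073f69c76a0d9655878917ce4be2b7ca75118f9b58d97f1fa9096e1f6dc2d78156cb0ffe0105a2a0453d8159907a1ca72a6999e55f170530253e5ef1d87f5d117d4e7a6ff5f83168f1faa502db4a08e878a1437af8feff10ce5257fa8a7da7d4aa1d75867131096a7391ebdd2a1dee4d2ad6ee27a30171b9a76a7369aa6d1a0a5ff3a8ecf79c6005c97387f6501fe8489edd3a908631e8558766e452c82028a1ffa27201a256e5f3ad6a5a417ee0a10f4d659ad5b1009b21029aac12dade891b7a627542e7021ad5f2a70c77877816aa05e8c61218af8fad7a50fd78fb7a17ad332d217df7c64ae62fa341909a72dc18aafd7a42ff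

set_option maxRecDepth 100000 in
theorem check : checkA (Fin 1123) Q 1123 = true := by decide +kernel

theorem had : HadOrder 4492 :=
  hadamard_checkA (Fin 1123) Q 1123 (by simp) check

end Pool.Agent.Helper25K9.Had.N1123
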