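import Pool.Agent.Helper25K9.Had.N659
import Pool.Agent.Helper25K9.Had.N1123
import Pool.Agent.Y341.Had.Orders

/-!
# Further new Hadamard orders and their multiples
-/

set_option autoImplicit false

namespace Pool.Agent.Helper25K9.Had

open Pool.Agent.TH394 (HadOrder)

theorem base : ∀ m ∈ ([659, 1123] : List ℕ), HadOrder (4 * m) := by
  intro m hm
  simp only [List.mem_cons, List.not_mem_nil, or_false] at hm
  rcases hm with rfl | rfl
  · exact N659.had
  · exact N1123.had

end Pool.Agent.Helper25K9.Had
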